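import Mathlib

open Filter Topology Asymptotics

namespace Pool.Agent.Results.MP_4d07cf_an.NotAlgebrable

/-- `n` times differentiable at every point. -/
def TimesDiff (n : ℕ) (f : ℝ → ℝ) : Prop := ∀ m < n, Differentiable ℝ (iteratedDeriv m f)

/-- `g` is nowhere Hölder: at every point and for every exponent `α > 0` the upper limit of the
Hölder quotients is infinite. -/
def NowhereHolder (g : ℝ → ℝ) : Prop :=
  ∀ x : ℝ, ∀ α : ℝ, 0 < α →
    limsup (fun y : ℝ => ENNReal.ofReal (|g y - g x| / |y - x| ^ α)) (𝓝[≠] x) = ⊤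

/-- The class `𝒜_n`. -/
def A (n : ℕ) : Set (ℝ → ℝ) := {f | TimesDiff n f ∧ NowhereHolder (iteratedDeriv n f)}

/-- Strong `κ`-algebrability of a set of real functions. -/
def StronglyAlgebrable (κ : Cardinal.{0}) (S : Set (ℝ → ℝ)) : Prop :=
  ∃ X : Set (ℝ → ℝ), Cardinal.mk X = κ ∧
    ∀ k : ℕ, 1 ≤ k → ∀ P : MvPolynomial (Fin k) ℝ, P ≠ 0 → MvPolynomial.constantCoeff P = 0 →
      ∀ y : Fin k → (ℝ → ℝ), Function.Injective y → (∀ i, y i ∈ X) →
        MvPolynomial.aeval y P ≠ 0 ∧ MvPolynomial.aeval y P ∈ S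

/-- recursive version of `TimesDiff` -/
def D : ℕ → (ℝ → ℝ) → Prop
  | 0, _ => True
  | (n + 1), f => Differentiable ℝ f ∧ D n (deriv f)

lemma D_iff (n : ℕ) (f : ℝ → ℝ) : D n f ↔ TimesDiff n f := by
  induction n generalizing f with
  | zero => simp [D, TimesDiff]
  | succ n ih =>
    simp only [D, TimesDiff, ih]
    constructor
    · rintro ⟨h1, h2⟩ m hm
      cases m with
      | zero => simpa using h1
      | succ m => rw [iteratedDeriv_succ']; exact h2 m (by omega)
    · intro h
      refine ⟨by simpa using h 0 (by omega), ?_⟩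
      intro m hm
      have := h (m + 1) (by omega)
      rwa [iteratedDeriv_succ'] at this

lemma D_mono {n : ℕ} {f : ℝ → ℝ} (h : D (n + 1) f) : D n f := by
  induction n generalizing f with
  | zero => simp [D]
  | succ n ih => exact ⟨h.1, ih h.2⟩

lemma D_le {n m : ℕ} (hnm : n ≤ m) {f : ℝ → ℝ} (h : D m f) : D n f := by
  induction m with
  | zero => simp_all [D]
  | succ m ih =>
    rcases Nat.lt_or_ge n (m + 1) with h1 | h1
    · exact ih (by omega) (D_mono h)
    · have : n = m + 1 := le_antisymm hnm h1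
      rw [this]; exact h

lemma D_add {n : ℕ} {f g : ℝ → ℝ} (hf : D n f) (hg : D n g) : D n (fun x => f x + g x) := by
  induction n generalizing f g with
  | zero => simp [D]
  | succ n ih =>
    refine ⟨hf.1.add hg.1, ?_⟩
    have : deriv (fun x => f x + g x) = fun x => deriv f x + deriv g x := by
      ext x; exact deriv_add (hf.1 x) (hg.1 x)
    rw [this]
    exact ih hf.2 hg.2

lemma D_mul {n : ℕ} {f g : ℝ → ℝ} (hf : D n f) (hg : D n g) : D n (fun x => f x * g x) := by
  induction n generalizing f g with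
  | zero => simp [D]
  | succ n ih =>
    refine ⟨hf.1.mul hg.1, ?_⟩
    have : deriv (fun x => f x * g x) = fun x => deriv f x * g x + f x * deriv g x := by
      ext x; exact deriv_mul (hf.1 x) (hg.1 x)
    rw [this]
    exact D_add (ih hf.2 (D_mono hg)) (ih (D_mono hf) hg.2)

lemma D_const (n : ℕ) (c : ℝ) : D n (fun _ => c) := by
  induction n generalizing c with
  | zero => simp [D]
  | succ n ih =>
    refine ⟨differentiable_const c, ?_⟩
    have : deriv (fun _ : ℝ => c) = fun _ => 0 := by ext x; simp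
    rw [this]; exact ih 0

lemma D_iterated {n k : ℕ} {f : ℝ → ℝ} (h : D (n + k) f) : D n (iteratedDeriv k f) := by
  induction k generalizing f with
  | zero => simpa using h
  | succ k ih => rw [iteratedDeriv_succ']; exact ih h.2

/-- Leibniz rule with differentiable remainder. -/
lemma leibniz {n : ℕ} {f g : ℝ → ℝ} (k : ℕ) (hf : D (n + k + 1) f) (hg : D (n + k + 1) g) :
    ∃ R : ℝ → ℝ, D (n + 1) R ∧ ∀ x, iteratedDeriv (k + 1) (fun x => f x * g x) x =
      f x * iteratedDeriv (k + 1) g x + iteratedDeriv (k + 1) f x * g x + R x := by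
  induction k generalizing n with
  | zero =>
    refine ⟨fun _ => 0, D_const _ _, ?_⟩
    intro x
    simp only [zero_add, iteratedDeriv_one]
    rw [show (fun x => f x * g x) = f * g from rfl, deriv_mul (hf.1 x) (hg.1 x)]
    ring
  | succ k ih =>
    obtain ⟨R, hR, hRe⟩ := ih (n := n + 1) (D_le (by omega) hf) (D_le (by omega) hg)
    have hfk : D (n + 1) (iteratedDeriv (k + 1) f) :=
      D_iterated (k := k + 1) (D_le (by omega) hf)
    have hgk : D (n + 1) (iteratedDeriv (k + 1) g) :=
      D_iterated (k := k + 1) (D_le (by omega) hg)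
    have hf1 : D (n + 1) (deriv f) := D_le (by omega) hf.2
    have hg1 : D (n + 1) (deriv g) := D_le (by omega) hg.2
    refine ⟨fun x => (deriv f x * iteratedDeriv (k + 1) g x
      + iteratedDeriv (k + 1) f x * deriv g x) + deriv R x, ?_, ?_⟩
    · exact D_add (D_add (D_mul hf1 hgk) (D_mul hfk hg1)) hR.2
    · intro x
      rw [iteratedDeriv_succ, iteratedDeriv_succ (n := k + 1) (f := f),
        iteratedDeriv_succ (n := k + 1) (f := g)]
      have e : iteratedDeriv (k + 1) (fun x => f x * g x) = fun x =>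
        (f x * iteratedDeriv (k + 1) g x + iteratedDeriv (k + 1) f x * g x) + R x := by
        ext x; exact hRe x
      rw [e]
      have h1 : HasDerivAt (fun x => f x * iteratedDeriv (k + 1) g x)
        (deriv f x * iteratedDeriv (k + 1) g x + f x * deriv (iteratedDeriv (k + 1) g) x) x :=
        (hf.1 x).hasDerivAt.mul (hgk.1 x).hasDerivAt
      have h2 : HasDerivAt (fun x => iteratedDeriv (k + 1) f x * g x)
        (deriv (iteratedDeriv (k + 1) f) x * g x + iteratedDeriv (k + 1) f x * deriv g x) x :=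
        (hfk.1 x).hasDerivAt.mul (hg.1 x).hasDerivAt
      have h3 : HasDerivAt (fun x => f x * iteratedDeriv (k + 1) g x
          + iteratedDeriv (k + 1) f x * g x + R x) _ x := (h1.add h2).add (hR.1 x).hasDerivAt
      rw [h3.deriv]
      ring

/-- A differentiable function has a nonempty open set where the derivative is bounded. -/
lemma exists_bounded_deriv {h : ℝ → ℝ} (hd : Differentiable ℝ h) :
    ∃ x₀ : ℝ, ∃ N : ℝ, ∀ᶠ x in 𝓝 x₀, |deriv h x| ≤ N := by
  set F : ℕ → Set ℝ := fun N =>
    {x | ∀ z : ℝ, |z - x| < 1 / ((N : ℝ) + 1) → |h z - h x| ≤ N * |z - x|} with hF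
  have hclosed : ∀ N, IsClosed (F N) := by
    intro N
    rw [← isSeqClosed_iff_isClosed]
    intro u x hu hux z hz
    have h1 : Tendsto (fun k => |z - u k|) atTop (𝓝 |z - x|) :=
      (tendsto_const_nhds.sub hux).abs
    have h2 : ∀ᶠ k in atTop, |z - u k| < 1 / ((N : ℝ) + 1) := h1.eventually_lt_const hz
    have h3 : Tendsto (fun k => |h z - h (u k)|) atTop (𝓝 |h z - h x|) :=
      (tendsto_const_nhds.sub ((hd.continuous.tendsto x).comp hux)).abs
    refine le_of_tendsto_of_tendsto h3 (h1.const_mul (N : ℝ)) ?_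
    filter_upwards [h2] with k hk
    exact hu k z hk
  have hcover : ⋃ N, F N = Set.univ := by
    rw [Set.eq_univ_iff_forall]
    intro x
    rw [Set.mem_iUnion]
    have h1 := (hd x).isBigO_sub
    obtain ⟨C, hC⟩ := h1.bound
    obtain ⟨ε, hε, hball⟩ := Metric.eventually_nhds_iff.1 hC
    obtain ⟨N, hN⟩ := exists_nat_ge (max C (1 / ε))
    refine ⟨N, fun z hz => ?_⟩
    have hN1 : (1 : ℝ) / ((N : ℝ) + 1) ≤ ε := by
      rw [div_le_iff₀ (by positivity)]
      have := (le_max_right C (1 / ε)).trans hN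
      rw [div_le_iff₀ hε] at this
      nlinarith
    have := hball (y := z) (by rw [Real.dist_eq]; linarith)
    rw [Real.norm_eq_abs, Real.norm_eq_abs] at this
    refine this.trans ?_
    gcongr
    exact (le_max_left _ _).trans hN
  obtain ⟨N, x₀, hx₀⟩ := nonempty_interior_of_iUnion_of_closed hclosed hcover
  refine ⟨x₀, N, ?_⟩
  have hnhds : interior (F N) ∈ 𝓝 x₀ := isOpen_interior.mem_nhds hx₀
  filter_upwards [hnhds] with x hx
  have hxF : x ∈ F N := interior_subset hx
  have h1 : Tendsto (fun z => ‖slope h x z‖) (𝓝[≠] x) (𝓝 ‖deriv h x‖) :=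
    ((hasDerivAt_iff_tendsto_slope.1 (hd x).hasDerivAt)).norm
  rw [← Real.norm_eq_abs]
  refine le_of_tendsto h1 ?_
  have h2 : ∀ᶠ z in 𝓝[≠] x, |z - x| < 1 / ((N : ℝ) + 1) := by
    apply Filter.Eventually.filter_mono nhdsWithin_le_nhds
    have : Tendsto (fun z => |z - x|) (𝓝 x) (𝓝 |x - x|) := by
      exact (continuous_abs.comp (continuous_id.sub continuous_const)).tendsto x
    rw [sub_self, abs_zero] at this
    exact this.eventually_lt_const (by positivity)
  filter_upwards [h2, self_mem_nhdsWithin] with z hz hzx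
  have hzx' : 0 < |z - x| := abs_pos.2 (sub_ne_zero.2 hzx)
  rw [slope_def_field, norm_div, Real.norm_eq_abs, Real.norm_eq_abs, div_le_iff₀ hzx']
  exact hxF z hz

/-- For every `n ≥ 1` and every cardinal `κ ≥ 1` the class `𝒜_n` is not strongly
`κ`-algebrable. -/
theorem result : ∀ n : ℕ, 1 ≤ n → ∀ κ : Cardinal.{0}, 1 ≤ κ → ¬ StronglyAlgebrable κ (A n) := by
  intro n hn κ hκ
  rintro ⟨X, hXκ, hX⟩
  obtain ⟨n, rfl⟩ : ∃ m, n = m + 1 := ⟨n - 1, by omega⟩
  have hne : X.Nonempty := by
    rw [Set.nonempty_iff_ne_empty]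
    rintro rfl
    simp only [Cardinal.mk_eq_zero] at hXκ
    rw [← hXκ] at hκ
    exact absurd hκ (by simp)
  obtain ⟨y, hy⟩ := hne
  -- y itself
  have hinj : Function.Injective (fun _ : Fin 1 => y) := fun a b _ => Subsingleton.elim a b
  have hyA : y ∈ A (n + 1) := by
    have := (hX 1 le_rfl (MvPolynomial.X 0) (MvPolynomial.X_ne_zero 0) (by simp)
      (fun _ => y) hinj (fun _ => hy)).2
    simpa using this
  have hyD : D (n + 1) y := (D_iff _ _).2 hyA.1
  have hyd : Differentiable ℝ y := hyD.1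
  have hnd : Differentiable ℝ (iteratedDeriv n y) := hyA.1 n (by omega)
  obtain ⟨x₀, N, hN⟩ := exists_bounded_deriv hnd
  set c : ℝ := y x₀ with hc
  -- the polynomial t (t - c)²
  set P : MvPolynomial (Fin 1) ℝ :=
    MvPolynomial.X 0 * (MvPolynomial.X 0 - MvPolynomial.C c) ^ 2 with hP
  have hP0 : P ≠ 0 := by
    intro h0
    have h1 : MvPolynomial.eval (fun _ => |c| + 1) P = 0 := by rw [h0]; simp
    simp only [hP, map_mul, map_pow, map_sub, MvPolynomial.eval_X, MvPolynomial.eval_C] at h1
    have h2 : 0 < |c| + 1 := by positivity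
    have h3 : 0 < |c| + 1 - c := by linarith [le_abs_self c]
    have : 0 < (|c| + 1) * (|c| + 1 - c) ^ 2 := by positivity
    linarith
  have hPc : MvPolynomial.constantCoeff P = 0 := by simp [hP]
  have hmem := (hX 1 le_rfl P hP0 hPc (fun _ => y) hinj (fun _ => hy)).2
  have hPy : MvPolynomial.aeval (fun _ : Fin 1 => y) P =
      fun x => ((y x - c) * (y x - c)) * y x := by
    ext x
    simp only [hP, map_mul, map_pow, map_sub, MvPolynomial.aeval_X, MvPolynomial.algHom_C,
      Pi.mul_apply, Pi.pow_apply, Pi.sub_apply]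
    have : (algebraMap ℝ (ℝ → ℝ)) c x = c := rfl
    rw [this]; ring
  rw [hPy] at hmem
  have hwD : D (n + 1) (fun x => y x - c) := by
    have := D_add hyD (D_const (n + 1) (-c))
    simpa [sub_eq_add_neg] using this
  obtain ⟨R1, hR1, hR1e⟩ := leibniz (n := 0) n (by simpa using hwD) (by simpa using hwD)
  obtain ⟨R2, hR2, hR2e⟩ := leibniz (n := 0) (f := fun x => (y x - c) * (y x - c)) (g := y) n
    (by simpa using D_mul hwD hwD) (by simpa using hyD)
  have hw : ∀ x, iteratedDeriv (n + 1) (fun x => y x - c) x = iteratedDeriv (n + 1) y x := by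
    intro x
    rw [iteratedDeriv_succ', iteratedDeriv_succ']
    congr 1
    ext t; simp
  have hF : ∀ x, iteratedDeriv (n + 1) (fun x => ((y x - c) * (y x - c)) * y x) x =
      (y x - c) * ((y x - c) + 2 * y x) * iteratedDeriv (n + 1) y x + (R1 x * y x + R2 x) := by
    intro x
    rw [hR2e, hR1e, hw]
    ring
  set G := iteratedDeriv (n + 1) (fun x => ((y x - c) * (y x - c)) * y x) with hG
  have hbig : (fun x => G x - G x₀) =O[𝓝 x₀] fun x => x - x₀ := by
    have e : ∀ x, G x - G x₀ = (y x - c) * (((y x - c) + 2 * y x) * iteratedDeriv (n + 1) y x)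
        + ((R1 x * y x + R2 x) - (R1 x₀ * y x₀ + R2 x₀)) := by
      intro x
      rw [hF x, hF x₀, ← hc]
      ring
    simp only [e]
    have hdR : Differentiable ℝ (fun x => R1 x * y x + R2 x) := (hR1.1.mul hyd).add hR2.1
    refine IsBigO.add ?_ (hdR x₀).isBigO_sub
    have h1 : (fun x => y x - c) =O[𝓝 x₀] fun x => x - x₀ := (hyd x₀).isBigO_sub
    have h2 : (fun x => (y x - c) + 2 * y x) =O[𝓝 x₀] fun _ => (1 : ℝ) := by
      have hc : Continuous fun x => (y x - c) + 2 * y x := by
        have := hyd.continuous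
        fun_prop
      exact (hc.tendsto x₀).isBigO_one ℝ
    have h3 : (fun x => iteratedDeriv (n + 1) y x) =O[𝓝 x₀] fun _ => (1 : ℝ) := by
      apply IsBigO.of_bound N
      filter_upwards [hN] with x hx
      rw [iteratedDeriv_succ]
      simpa using hx
    have := h1.mul (h2.mul h3)
    simpa using this
  have hlim := hmem.2 x₀ 1 one_pos
  obtain ⟨C, hC⟩ := hbig.bound
  have hle : limsup (fun z : ℝ => ENNReal.ofReal (|G z - G x₀| / |z - x₀| ^ (1 : ℝ))) (𝓝[≠] x₀)
      ≤ ENNReal.ofReal C := by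
    apply limsup_le_of_le (by isBoundedDefault)
    filter_upwards [hC.filter_mono nhdsWithin_le_nhds, self_mem_nhdsWithin] with z hz hzx
    apply ENNReal.ofReal_le_ofReal
    have hzx' : 0 < |z - x₀| := abs_pos.2 (sub_ne_zero.2 hzx)
    rw [Real.rpow_one, div_le_iff₀ hzx']
    simpa using hz
  rw [hlim] at hle
  exact absurd hle (by simp)

end Pool.Agent.Results.MP_4d07cf_an.NotAlgebrable
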